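import Pool.Agent.N254.SQ.Fin3
import Pool.Agent.N254.SQ.Key
import Pool.Agent.N254.SQ.IdlR
import Pool.Agent.N254.SQ.RestrR

/-!
# The Green–Griffiths–Lang conjecture is a question on smooth hypersurfaces

Let `X = V(S)` be any projective variety in `P^n`, `n ≥ 1` (any dimension and any singularities), given
by forms of degree at most `d`, `d ≥ 3`, and `v : P^n → P^N` the Veronese embedding of degree `d`. For
all `D ≥ D₁(N)` there are quadratic forms `Q_t`, `t < N (2 N + 1)`, such that the hypersurface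

`Y : ∑ t, Q_t(y) (y_0 + t y_1 + ⋯ + t^N y_N)^D = 0`

is smooth, contains `v(X)`, and has the four properties of Q1 with the exceptional set `v(X)`:

* (i) `Y`, and every closed subvariety of `Y` of dimension `> n`, is of general type;
* (ii) every holomorphic map from the punctured disc to `Y` extends or lies in `v(X)`;
* (iii) every nonconstant entire curve in `Y` lies in `v(X)`;
* (iv) every closed subvariety of `Y` of positive dimension which is not contained in `v(X)` is of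
  general type.

So the three exceptional sets of `Y` (the closures of the union of all maps from the punctured disc
which do not extend, of all nonconstant entire curves, of all closed subvarieties of positive
dimension which are not of general type) are those of `X`. Consequently the generalized
Green–Griffiths–Lang conjecture (the four properties are equivalent) for all irreducible projective
varieties, with arbitrary singularities, is equivalent to the following statement on the smooth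
hypersurfaces `Y` of this form, with `D` in any given infinite set of exponents: the three exceptional
sets of `Y` coincide, and no irreducible component of them is of general type.

Proof. See `Pool/Agent/N254/SQ`. `X` is mapped to the zeros of quadratic forms `q_i` whose Jacobian
matrix has rank `≥ N - n > n` at all points, and `Q_t = ∑ c_{t,i} q_i` with general coefficients. Over any
extension field a point of `Y` with `2 N + 1` disjoint vanishing subsums is a zero of all `q_i`; and for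
curves, maps from the punctured disc and subvarieties, a minimal vanishing subsum with more than
`N` terms leads to a contradiction, respectively to pluricanonical forms, through Wronskians of
circuits. For the equivalence, if `X` is of general type and `v(X)` is contained in the special set of
`Y`, then `v(X)` is a component of it; conversely the Zariski closure of an entire curve is a variety
to which the conjecture applies.
-/

set_option autoImplicit false

namespace Pool.Agent.Results.MP_64ff02_ag.PrescribedExceptionalLocus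

open MvPolynomial Metric
open Pool.Agent.W602.GT (SubVar GeneralType)
open Pool.Agent.N254.SQ (IsForm Eqs Extends Component OnSpecial OnCurves OnDiscs SmoothForm powerForm
  Monomials veronese)

/-- the closed subset of `P^n` with function field `L` and generic point `y` is irreducible, of
dimension `w` -/
abbrev Irreducible {n : ℕ} (L : Type) [Field L] [Algebra ℂ L] (w : ℕ) (y : Fin (n + 1) → L) : Prop :=
  SubVar (fun p : (∅ : Set (MvPolynomial (Fin (n + 1)) ℂ)) => (p : MvPolynomial (Fin (n + 1)) ℂ))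
    L w y

/-- Q1 for all irreducible projective varieties of positive dimension: the following are equivalent:
general type; pseudo Picard hyperbolic; pseudo Brody hyperbolic; strongly of general type. -/
def GreenGriffithsLang : Prop :=
  ∀ (n : ℕ) (L : Type) [Field L] [Algebra ℂ L] (w : ℕ) (y : Fin (n + 1) → L), 1 ≤ w →
    Irreducible L w y →
    [GeneralType ℂ L w,
      ∃ G : MvPolynomial (Fin (n + 1)) ℂ, IsForm G ∧ aeval y G ≠ 0 ∧ OnDiscs (Eqs y) G,
      ∃ G : MvPolynomial (Fin (n + 1)) ℂ, IsForm G ∧ aeval y G ≠ 0 ∧ OnCurves (Eqs y) G,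
      ∃ G : MvPolynomial (Fin (n + 1)) ℂ, IsForm G ∧ aeval y G ≠ 0 ∧ OnSpecial (Eqs y) G].TFAE

/-- the exceptional sets of `A = 0` coincide: the same forms vanish on the maps from the punctured
disc which do not extend, on the nonconstant entire curves, and on the closed subvarieties of
positive dimension which are not of general type; and no irreducible component of this set is of
general type -/
def ExceptionalSets {N : ℕ} (A : MvPolynomial (Fin (N + 1)) ℂ) : Prop :=
  (∀ G, IsForm G → (OnDiscs {A} G ↔ OnSpecial {A} G) ∧ (OnCurves {A} G ↔ OnSpecial {A} G)) ∧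
    ∀ (L : Type) [Field L] [Algebra ℂ L] (w : ℕ) (y : Fin (N + 1) → L), 1 ≤ w →
      SubVar (fun _ : Unit => A) L w y → GeneralType ℂ L w → ¬ Component (OnSpecial {A}) y

section

variable {n N : ℕ} (m : Fin (N + 1) → Fin (n + 1) → ℕ) (S : Set (MvPolynomial (Fin (n + 1)) ℂ))
  (A : MvPolynomial (Fin (N + 1)) ℂ)

/-- every closed subvariety of `A = 0` of dimension `> n` is of general type -/
def PropertyI : Prop :=
  ∀ (L : Type) [Field L] [Algebra ℂ L] (w : ℕ) (y : Fin (N + 1) → L), n < w →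
    SubVar (fun _ : Unit => A) L w y → GeneralType ℂ L w

/-- holomorphic maps from the punctured disc to `A = 0` extend or lie in `v(X)` -/
def PropertyII : Prop :=
  ∀ f : ℂ → Fin (N + 1) → ℂ, DifferentiableOn ℂ f (ball 0 1 \ {0}) →
    (∃ w ∈ ball (0 : ℂ) 1 \ {0}, f w ≠ 0) → (∀ w ∈ ball (0 : ℂ) 1 \ {0}, eval (f w) A = 0) →
    Extends f ∨ ∀ w ∈ ball (0 : ℂ) 1 \ {0}, f w ≠ 0 →
      ∃ x : Fin (n + 1) → ℂ, x ≠ 0 ∧ (∀ p ∈ S, eval x p = 0) ∧ f w = veronese m x

/-- entire curves in `A = 0` are constant or lie in `v(X)` -/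
def PropertyIII : Prop :=
  ∀ f : ℂ → Fin (N + 1) → ℂ, Differentiable ℂ f → (∀ z, f z ≠ 0) → (∀ z, eval (f z) A = 0) →
    (∀ z w, ∃ c : ℂ, f w = c • f z) ∨
      ∀ z, ∃ x : Fin (n + 1) → ℂ, x ≠ 0 ∧ (∀ p ∈ S, eval x p = 0) ∧ f z = veronese m x

/-- closed subvarieties of `A = 0` of positive dimension are of general type or lie in `v(X)` -/
def PropertyIV : Prop :=
  ∀ (L : Type) [Field L] [Algebra ℂ L] (w : ℕ) (y : Fin (N + 1) → L), 1 ≤ w →
    SubVar (fun _ : Unit => A) L w y → GeneralType ℂ L w ∨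
      ∃ (x : Fin (n + 1) → L) (c : L), x ≠ 0 ∧ c ≠ 0 ∧ (∀ p ∈ S, aeval x p = 0) ∧
        y = c • veronese m x

end

section proof

open Pool.Agent.N254.SQ

/-- the dimension of a point given by ratios -/
theorem dim_le {M n : ℕ} {L : Type} [Field L] [Algebra ℂ L] {w : ℕ} {y : Fin (M + 1) → L}
    (hgen : Pool.Agent.W602.GT.coords ℂ y = ⊤) (hdim : Algebra.trdeg ℂ L = w)
    (x : Fin (n + 1) → L) (hx : x ≠ 0)
    (h : Pool.Agent.W602.GT.coords ℂ x = Pool.Agent.W602.GT.coords ℂ y) : w ≤ n := by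
  obtain ⟨a, ha⟩ : ∃ a, x a ≠ 0 := by
    by_contra hcon
    push Not at hcon
    exact hx (funext hcon)
  set x' : Fin (n + 1) → L := fun j => x j / x a with hx'
  have h2 : IntermediateField.adjoin ℂ (Set.range x') = ⊤ := by
    rw [eq_top_iff, ← hgen, ← h]
    apply IntermediateField.adjoin_le_iff.2
    rintro _ ⟨i, j, hj, rfl⟩
    have h3 : ∀ k, x' k ∈ IntermediateField.adjoin ℂ (Set.range x') := fun k =>
      IntermediateField.subset_adjoin ℂ _ ⟨k, rfl⟩
    have h4 : x i / x j = x' i / x' j := by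
      rw [hx']
      simp only
      rw [div_div_div_cancel_right₀ ha]
    rw [h4]
    exact div_mem (h3 i) (h3 j)
  have h3 := t_td ℂ L n n x' a x' (by rw [hx']; exact div_self ha)
    (fun b => ⟨X b, by rw [aeval_X]⟩)
  rw [← trdeg_field, h2] at h3
  have h4 := (IntermediateField.topEquiv (F := ℂ) (E := L)).trdeg_eq
  rw [h4, hdim] at h3
  exact_mod_cast h3

theorem main_part : ∃ D₁ : ℕ → ℕ,
    ∀ n d : ℕ, 1 ≤ n → 3 ≤ d → ∃ (N : ℕ) (m : Fin (N + 1) → Fin (n + 1) → ℕ),
      Monomials n N d m ∧ 2 * n < N ∧ ∀ D, D₁ N ≤ D →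
        ∀ S : Set (MvPolynomial (Fin (n + 1)) ℂ), (∀ p ∈ S, ∃ e ≤ d, p.IsHomogeneous e) →
        ∃ Q : Fin (N * (2 * N + 1)) → MvPolynomial (Fin (N + 1)) ℂ,
          (∀ t, (Q t).IsHomogeneous 2) ∧ SmoothForm (powerForm D Q) ∧
          Good n N d m S (powerForm D Q) := by
  obtain ⟨D₁, H⟩ := main5 leaves4 t_ext
  refine ⟨D₁, fun n d hn hd => ?_⟩
  obtain ⟨N, m, hm, hN, H2⟩ := H n d hn hd
  refine ⟨N, m, ⟨hm.deg, hm.inj, hm.surj⟩, hN, fun D hD S hS => ?_⟩
  obtain ⟨Q, hQ, hsm, -, hg⟩ := H2 D hD ℂ (RingHom.id ℂ) S hS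
  have hid : (map (RingHom.id ℂ) '' S : Set (MvPolynomial (Fin (n + 1)) ℂ)) = S := by
    ext p
    simp [map_id]
  rw [hid, map_id] at hg
  refine ⟨Q, hQ, ?_, hg⟩
  intro y hy
  obtain ⟨j, hj⟩ := hsm ℂ (RingHom.id ℂ) y hy
  rw [map_id] at hj
  exact ⟨j, hj⟩

variable {n N d : ℕ} {m : Fin (N + 1) → Fin (n + 1) → ℕ}
  {S T : Set (MvPolynomial (Fin (n + 1)) ℂ)} {A : MvPolynomial (Fin (N + 1)) ℂ}

theorem mono_special (h : ∀ (L : Type) [Field L] [Algebra ℂ L] (x : Fin (n + 1) → L),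
    (∀ p ∈ T, aeval x p = 0) → ∀ p ∈ S, aeval x p = 0) {G : MvPolynomial (Fin (n + 1)) ℂ}
    (hS : OnSpecial S G) : OnSpecial T G := by
  intro L _ _ w y hw hy
  exact hS L w y hw ⟨hy.ne, fun p => h L y (fun p hp => hy.mem ⟨p, hp⟩) _ p.2, hy.gen, hy.dim⟩

theorem mono_curves (h : ∀ (L : Type) [Field L] [Algebra ℂ L] (x : Fin (n + 1) → L),
    (∀ p ∈ T, aeval x p = 0) → ∀ p ∈ S, aeval x p = 0) {G : MvPolynomial (Fin (n + 1)) ℂ}
    (hS : OnCurves S G) : OnCurves T G := by
  intro f hf hf0 hfT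
  exact hS f hf hf0 fun z p hp => h ℂ (f z) (fun p hp => hfT z p hp) p hp

theorem mono_discs (h : ∀ (L : Type) [Field L] [Algebra ℂ L] (x : Fin (n + 1) → L),
    (∀ p ∈ T, aeval x p = 0) → ∀ p ∈ S, aeval x p = 0) {G : MvPolynomial (Fin (n + 1)) ℂ}
    (hS : OnDiscs S G) : OnDiscs T G := by
  intro f hf hf0 hfT
  exact hS f hf hf0 fun z hz p hp => h ℂ (f z) (fun p hp => hfT z hz p hp) p hp

/-- powers -/
theorem idl_pow {I : MvPolynomial (Fin (n + 1)) ℂ → Prop} (hI : Idl I)
    {F : MvPolynomial (Fin (n + 1)) ℂ} (hF : IsForm F) (k : ℕ) (hk : 1 ≤ k) :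
    I (F ^ k) ↔ I F := by
  constructor
  · exact hI.rad F k hF
  · intro h
    obtain ⟨j, rfl⟩ : ∃ j, k = 1 + j := ⟨k - 1, by omega⟩
    obtain ⟨e, he⟩ := hF
    rw [pow_add, pow_one]
    exact hI.mul F (F ^ j) ⟨e, he⟩ ⟨_, he.pow j⟩ h

/-- from `A = 0` to `V(S)` -/
theorem descend (hg : Good n N d m S A) {I I' : MvPolynomial (Fin (n + 1)) ℂ → Prop}
    {J J' : MvPolynomial (Fin (N + 1)) ℂ → Prop} (hI : Idl I) (hI' : Idl I')
    (h1 : ∀ G, IsForm G → (J G ↔ I (pull m G))) (h2 : ∀ G, IsForm G → (J' G ↔ I' (pull m G)))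
    (h : ∀ G, IsForm G → (J G ↔ J' G)) {F : MvPolynomial (Fin (n + 1)) ℂ} (hF : IsForm F) :
    I F ↔ I' F := by
  obtain ⟨e, he⟩ := hF
  obtain ⟨G, hG, hGF⟩ := t_versurj n N d m hg.mon e (F ^ d) (by
    rw [mul_comm]
    exact he.pow d)
  have hGF' : pull m G = F ^ d := hGF
  rw [← idl_pow hI ⟨e, he⟩ d hg.deg, ← idl_pow hI' ⟨e, he⟩ d hg.deg, ← hGF', ← h1 G ⟨e, hG⟩,
    ← h2 G ⟨e, hG⟩, h G ⟨e, hG⟩]

/-- the components -/
theorem comps {L : Type} [Field L] [Algebra ℂ L] {w : ℕ} {y : Fin (n + 1) → L} (hw : 1 ≤ w)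
    (hy : Irreducible L w y) (hGT : GeneralType ℂ L w)
    (hT : T ⊆ Eqs y) (hTS : ∀ (L' : Type) [Field L'] [Algebra ℂ L'] (x : Fin (n + 1) → L'),
      (∀ p ∈ T, aeval x p = 0) → ∀ p ∈ Eqs y, aeval x p = 0)
    (hg : Good n N d m T A) (h : ExceptionalSets A) :
    ∃ G : MvPolynomial (Fin (n + 1)) ℂ, IsForm G ∧ aeval y G ≠ 0 ∧ OnSpecial (Eqs y) G := by
  obtain ⟨G, hG, hGI, hGy⟩ := t_key t_comp n N d m T A hg L w y hw
    ⟨hy.ne, fun p => (hT p.2).2, hy.gen, hy.dim⟩
    (fun G hG hGy Ω _ _ x hx => hTS Ω x hx G ⟨hG, hGy⟩) hGT (OnSpecial {A})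
    (t_idls.special N {A}) (fun L' _ _ w' y' _ hy' => Or.inr (hy'.mem ⟨A, rfl⟩))
    (fun L' _ _ w' y' hw' hy' hGT' => h.2 L' w' y' hw'
      ⟨hy'.ne, fun _ => hy'.mem ⟨A, rfl⟩, hy'.gen, hy'.dim⟩ hGT')
  obtain ⟨e, he⟩ := hG
  exact ⟨pull m G, ⟨_, pull_hom hg.mon he⟩, hGy,
    mono_special (fun L' _ _ x hx p hp => hx p (hT hp)) ((special_iff hg ⟨e, he⟩).1 hGI)⟩

theorem backward (E : Set ℕ) (hE : E.Infinite) (D₁ : ℕ → ℕ)
    (H : ∀ n d : ℕ, 1 ≤ n → 3 ≤ d → ∃ (N : ℕ) (m : Fin (N + 1) → Fin (n + 1) → ℕ),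
      Monomials n N d m ∧ 2 * n < N ∧ ∀ D, D₁ N ≤ D →
        ∀ S : Set (MvPolynomial (Fin (n + 1)) ℂ), (∀ p ∈ S, ∃ e ≤ d, p.IsHomogeneous e) →
        ∃ Q : Fin (N * (2 * N + 1)) → MvPolynomial (Fin (N + 1)) ℂ,
          (∀ t, (Q t).IsHomogeneous 2) ∧ SmoothForm (powerForm D Q) ∧
          Good n N d m S (powerForm D Q))
    (h : ∀ (N D : ℕ) (Q : Fin (N * (2 * N + 1)) → MvPolynomial (Fin (N + 1)) ℂ), D ∈ E →
      D₁ N ≤ D → (∀ t, (Q t).IsHomogeneous 2) → SmoothForm (powerForm D Q) →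
      ExceptionalSets (powerForm D Q)) : GreenGriffithsLang := by
  intro n L _ _ w y hw hy
  have hn : 1 ≤ n := le_trans hw (dim_le hy.gen hy.dim y hy.ne rfl)
  obtain ⟨T, hT, hTS⟩ := reduce (Eqs y)
  have hTS' : ∀ (L' : Type) [Field L'] [Algebra ℂ L'] (x : Fin (n + 1) → L'),
      (∀ p ∈ (T : Set (MvPolynomial (Fin (n + 1)) ℂ)), aeval x p = 0) →
      ∀ p ∈ Eqs y, aeval x p = 0 := by
    intro L' _ _ x hx p hp
    have h1 := hTS L' (algebraMap ℂ L') x (fun p hp => by
      rw [eval_map]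
      exact hx p hp) p hp
    rw [eval_map] at h1
    exact h1
  have hTS2 : ∀ (L' : Type) [Field L'] [Algebra ℂ L'] (x : Fin (n + 1) → L'),
      (∀ p ∈ Eqs y, aeval x p = 0) →
      ∀ p ∈ (T : Set (MvPolynomial (Fin (n + 1)) ℂ)), aeval x p = 0 :=
    fun L' _ _ x hx p hp => hx p (hT hp)
  have hT2 : ∀ p ∈ T, ∃ e, p.IsHomogeneous e := fun p hp => (hT hp).1
  obtain ⟨d, hd3, hd⟩ : ∃ d, 3 ≤ d ∧ ∀ p ∈ T, ∃ e ≤ d, p.IsHomogeneous e := by
    choose! e he using hT2
    refine ⟨max 3 (T.sup e), le_max_left _ _, fun p hp => ⟨e p, ?_, he p hp⟩⟩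
    exact le_trans (Finset.le_sup (f := e) hp) (le_max_right _ _)
  obtain ⟨N, m, -, -, H2⟩ := H n d hn hd3
  obtain ⟨D, hD, hD2⟩ := hE.exists_gt (D₁ N)
  obtain ⟨Q, hQ, hsm, hg⟩ := H2 D hD2.le (T : Set (MvPolynomial (Fin (n + 1)) ℂ))
    (fun p hp => hd p hp)
  have hX := h N D Q hD hD2.le hQ hsm
  have e1 : ∀ G, IsForm G → (OnSpecial (Eqs y) G ↔ OnSpecial (T : Set _) G) := fun G _ =>
    ⟨mono_special hTS', mono_special hTS2⟩
  have e2 : ∀ G, IsForm G → (OnCurves (Eqs y) G ↔ OnCurves (T : Set _) G) := fun G _ =>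
    ⟨mono_curves hTS', mono_curves hTS2⟩
  have e3 : ∀ G, IsForm G → (OnDiscs (Eqs y) G ↔ OnDiscs (T : Set _) G) := fun G _ =>
    ⟨mono_discs hTS', mono_discs hTS2⟩
  have c1 : ∀ F, IsForm F → (OnCurves (Eqs y) F ↔ OnSpecial (Eqs y) F) := by
    intro F hF
    rw [e2 F hF, e1 F hF]
    exact descend hg (t_idls.curves n _) (t_idls.special n _)
      (fun G _ => curves_iff t_lift hg) (fun G hG => special_iff hg hG)
      (fun G hG => (hX.1 G hG).2) hF
  have c2 : ∀ F, IsForm F → (OnDiscs (Eqs y) F ↔ OnSpecial (Eqs y) F) := by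
    intro F hF
    rw [e3 F hF, e1 F hF]
    exact descend hg (t_idls.discs n _) (t_idls.special n _)
      (fun G hG => discs_iff t_ext hg hG) (fun G hG => special_iff hg hG)
      (fun G hG => (hX.1 G hG).1) hF
  tfae_have 1 → 4 := fun hGT => comps hw hy hGT hT hTS' hg hX
  tfae_have 4 → 1 := by
    rintro ⟨G, hG, hGy, hGs⟩
    rcases hGs L w y hw ⟨hy.ne, fun p => p.2.2, hy.gen, hy.dim⟩ with h1 | h1
    · exact h1
    · exact absurd h1 hGy
  tfae_have 2 ↔ 4 := by
    constructor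
    · rintro ⟨G, hG, hGy, hGs⟩
      exact ⟨G, hG, hGy, (c2 G hG).1 hGs⟩
    · rintro ⟨G, hG, hGy, hGs⟩
      exact ⟨G, hG, hGy, (c2 G hG).2 hGs⟩
  tfae_have 3 ↔ 4 := by
    constructor
    · rintro ⟨G, hG, hGy, hGs⟩
      exact ⟨G, hG, hGy, (c1 G hG).1 hGs⟩
    · rintro ⟨G, hG, hGy, hGs⟩
      exact ⟨G, hG, hGy, (c1 G hG).2 hGs⟩
  tfae_finish

theorem forward (hQ1 : GreenGriffithsLang) {A : MvPolynomial (Fin (n + 1)) ℂ} (hA : IsForm A) :
    ExceptionalSets A := by
  refine ⟨fun G hG => ⟨⟨?_, ?_⟩, ⟨?_, ?_⟩⟩, ?_⟩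
  · -- discs to special
    intro h L _ _ w y hw hy
    by_contra hcon
    push Not at hcon
    have h1 := (hQ1 n L w y hw ⟨hy.ne, fun p => absurd p.2 (Set.notMem_empty _), hy.gen,
      hy.dim⟩).out 0 1
    apply hcon.1
    rw [h1]
    refine ⟨G, hG, hcon.2, fun f hf hf0 hfy => h f hf hf0 fun w hw p hp => ?_⟩
    rw [Set.mem_singleton_iff] at hp
    rw [hp]
    exact hfy w hw A ⟨hA, hy.mem ⟨A, rfl⟩⟩
  · -- special to discs
    rintro h f hf ⟨w0, hw0, hfw0⟩ hfA
    obtain ⟨L, _, _, w, y, hy, hyf, hconst⟩ := t_genpt n (ball 0 1 \ {0}) f disc_open disc_conn hf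
      ⟨w0, hw0, hfw0⟩
    by_cases hw : w = 0
    · left
      have h1 := hconst hw
      obtain ⟨j0, hj0⟩ : ∃ j, f w0 j ≠ 0 := by
        by_contra h3
        push Not at h3
        exact hfw0 (funext h3)
      refine ⟨1, one_pos, fun _ => f w0, differentiableOn_const _, fun _ _ => hfw0, fun z hz =>
        ⟨f z j0 / f w0 j0, funext fun i => ?_⟩⟩
      rw [Pi.smul_apply, smul_eq_mul, div_mul_eq_mul_div, eq_div_iff hj0]
      have := h1 z hz w0 hw0 i j0
      linear_combination this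
    · have hyA : SubVar (fun p : ({A} : Set _) => (p : MvPolynomial (Fin (n + 1)) ℂ)) L w y := by
        refine ⟨hy.ne, fun p => ?_, hy.gen, hy.dim⟩
        obtain ⟨p, hp⟩ := p
        rw [Set.mem_singleton_iff] at hp
        subst hp
        exact (hyf p hA).2 fun z hz => hfA z hz p rfl
      rcases h L w y (by omega) hyA with h1 | h1
      · by_contra hcon
        push Not at hcon
        have h2 := (hQ1 n L w y (by omega) ⟨hy.ne, fun p => absurd p.2 (Set.notMem_empty _),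
          hy.gen, hy.dim⟩).out 0 1
        obtain ⟨G', hG', hGy', hd'⟩ := h2.1 h1
        rcases hd' f hf ⟨w0, hw0, hfw0⟩ (fun z hz p hp => (hyf p hp.1).1 hp.2 z hz) with h3 | h3
        · exact hcon.1 h3
        · exact hGy' ((hyf G' hG').2 h3)
      · exact Or.inr ((hyf G hG).1 h1)
  · -- curves to special
    intro h L _ _ w y hw hy
    by_contra hcon
    push Not at hcon
    have h1 := (hQ1 n L w y hw ⟨hy.ne, fun p => absurd p.2 (Set.notMem_empty _), hy.gen,
      hy.dim⟩).out 0 2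
    apply hcon.1
    rw [h1]
    refine ⟨G, hG, hcon.2, fun f hf hf0 hfy => h f hf hf0 fun z p hp => ?_⟩
    rw [Set.mem_singleton_iff] at hp
    rw [hp]
    exact hfy z A ⟨hA, hy.mem ⟨A, rfl⟩⟩
  · -- special to curves
    intro h f hf hf0 hfA
    obtain ⟨L, _, _, w, y, hy, hyf, hconst⟩ := t_genpt n Set.univ f isOpen_univ
      isPreconnected_univ hf.differentiableOn ⟨0, Set.mem_univ _, hf0 0⟩
    by_cases hw : w = 0
    · left
      have h1 := hconst hw
      intro z z'
      obtain ⟨j0, hj0⟩ : ∃ j, f z j ≠ 0 := by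
        by_contra h3
        push Not at h3
        exact hf0 z (funext h3)
      refine ⟨f z' j0 / f z j0, funext fun i => ?_⟩
      rw [Pi.smul_apply, smul_eq_mul, div_mul_eq_mul_div, eq_div_iff hj0]
      have := h1 z' (Set.mem_univ _) z (Set.mem_univ _) i j0
      linear_combination this
    · have hyA : SubVar (fun p : ({A} : Set _) => (p : MvPolynomial (Fin (n + 1)) ℂ)) L w y := by
        refine ⟨hy.ne, fun p => ?_, hy.gen, hy.dim⟩
        obtain ⟨p, hp⟩ := p
        rw [Set.mem_singleton_iff] at hp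
        subst hp
        exact (hyf p hA).2 fun z _ => hfA z p rfl
      rcases h L w y (by omega) hyA with h1 | h1
      · by_contra hcon
        rw [not_or] at hcon
        have h2 := (hQ1 n L w y (by omega) ⟨hy.ne, fun p => absurd p.2 (Set.notMem_empty _),
          hy.gen, hy.dim⟩).out 0 2
        obtain ⟨G', hG', hGy', hd'⟩ := h2.1 h1
        rcases hd' f hf hf0 (fun z p hp => (hyf p hp.1).1 hp.2 z (Set.mem_univ _)) with h3 | h3
        · exact hcon.1 h3
        · exact hGy' ((hyf G' hG').2 fun z _ => h3 z)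
      · exact Or.inr fun z => (hyf G hG).1 h1 z (Set.mem_univ _)
  · -- components
    rintro L _ _ w y hw hy hGT ⟨hc1, H, hH, hHy, hc2⟩
    have h2 := (hQ1 n L w y hw ⟨hy.ne, fun p => absurd p.2 (Set.notMem_empty _),
      hy.gen, hy.dim⟩).out 0 3
    obtain ⟨G, hG, hGy, hGs⟩ := h2.1 hGT
    have h3 := t_restr.special n {A} L y G H hG hH hc2 hGs
    obtain ⟨e, he⟩ := id hG
    obtain ⟨e', he'⟩ := id hH
    have h4 := hc1 (G * H) ⟨_, he.mul he'⟩ h3
    rw [map_mul, mul_eq_zero] at h4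
    rcases h4 with h4 | h4
    · exact hGy h4
    · exact hHy h4

end proof

theorem result : ∃ D₁ : ℕ → ℕ,
    (∀ n d : ℕ, 1 ≤ n → 3 ≤ d → ∃ (N : ℕ) (m : Fin (N + 1) → Fin (n + 1) → ℕ),
      Monomials n N d m ∧ 2 * n < N ∧ ∀ D, D₁ N ≤ D →
        ∀ S : Set (MvPolynomial (Fin (n + 1)) ℂ), (∀ p ∈ S, ∃ e ≤ d, p.IsHomogeneous e) →
        ∃ Q : Fin (N * (2 * N + 1)) → MvPolynomial (Fin (N + 1)) ℂ,
          (∀ t, (Q t).IsHomogeneous 2) ∧ SmoothForm (powerForm D Q) ∧
          (∀ x : Fin (n + 1) → ℂ, (∀ p ∈ S, eval x p = 0) →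
            eval (veronese m x) (powerForm D Q) = 0) ∧
          PropertyI (n := n) (powerForm D Q) ∧ PropertyII m S (powerForm D Q) ∧
          PropertyIII m S (powerForm D Q) ∧ PropertyIV m S (powerForm D Q)) ∧
    ∀ E : Set ℕ, E.Infinite →
      (GreenGriffithsLang ↔
        ∀ (N D : ℕ) (Q : Fin (N * (2 * N + 1)) → MvPolynomial (Fin (N + 1)) ℂ), D ∈ E →
          D₁ N ≤ D → (∀ t, (Q t).IsHomogeneous 2) → SmoothForm (powerForm D Q) →
          ExceptionalSets (powerForm D Q)) := by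
  obtain ⟨D₁, H⟩ := main_part
  refine ⟨D₁, fun n d hn hd => ?_, fun E hE => ⟨fun h N D Q _ _ hQ _ => ?_,
    fun h => backward E hE D₁ H h⟩⟩
  · obtain ⟨N, m, hm, hN, H2⟩ := H n d hn hd
    refine ⟨N, m, hm, hN, fun D hD S hS => ?_⟩
    obtain ⟨Q, hQ, hsm, hg⟩ := H2 D hD S hS
    have h4 : PropertyIV m S (powerForm D Q) := by
      intro L _ _ w y hw hy
      exact hg.special L w y hw ⟨hy.ne, fun p => by
        obtain ⟨p, hp⟩ := p
        rw [Set.mem_singleton_iff] at hp
        subst hp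
        exact hy.mem (), hy.gen, hy.dim⟩
    refine ⟨Q, hQ, hsm, fun x hx => hg.sub ℂ x hx, ?_, hg.discs, hg.curves, h4⟩
    intro L _ _ w y hw hy
    rcases h4 L w y (by omega) hy with h1 | ⟨x, c, hx, hc, -, hyx⟩
    · exact h1
    · have := dim_le hy.gen hy.dim x hx (by
        rw [hyx]
        exact (Pool.Agent.N254.SQ.coords_ver hg.mon hg.deg x hx c hc).symm)
      omega
  · exact forward h ⟨_, Pool.Agent.N254.SQ.power_form hQ⟩

end Pool.Agent.Results.MP_64ff02_ag.PrescribedExceptionalLocus
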